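import Mathlib

set_option autoImplicit false

/-! The `d`-regular tree as the set of reduced words in `d` involutions. -/

namespace Pool.Agent.Y397.AM

variable {dg : ℕ}

/-- Reduced words: no two neighbouring letters are equal. -/
abbrev W (dg : ℕ) : Type := {l : List (Fin dg) // l.IsChain (· ≠ ·)}

/-- Left multiplication of a word by a letter, with cancellation. -/
def actL (c : Fin dg) : List (Fin dg) → List (Fin dg)
  | [] => [c]
  | d :: l => if c = d then l else c :: d :: l

theorem actL_chain (c : Fin dg) (l : List (Fin dg)) (h : l.IsChain (· ≠ ·)) :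
    (actL c l).IsChain (· ≠ ·) := by
  cases l with
  | nil => simp [actL]
  | cons d l =>
    by_cases hcd : c = d
    · simp only [actL, hcd, if_true]
      exact h.tail
    · simp only [actL, hcd, if_false]
      exact List.isChain_cons_cons.2 ⟨hcd, h⟩

theorem actL_actL (c : Fin dg) (l : List (Fin dg)) (h : l.IsChain (· ≠ ·)) :
    actL c (actL c l) = l := by
  cases l with
  | nil => simp [actL]
  | cons d l =>
    by_cases hcd : c = d
    · subst hcd
      cases l with
      | nil => simp [actL]
      | cons e l =>
        have : c ≠ e := (List.isChain_cons_cons.1 h).1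
        simp [actL, this]
    · simp [actL, hcd]

/-- The action of a letter on words. -/
def act (c : Fin dg) (w : W dg) : W dg := ⟨actL c w.1, actL_chain c w.1 w.2⟩

theorem act_act (c : Fin dg) (w : W dg) : act c (act c w) = w := Subtype.ext (actL_actL c w.1 w.2)

/-- The empty word. -/
def e0 : W dg := ⟨[], by simp⟩

/-- Length. -/
def len (w : W dg) : ℕ := w.1.length

theorem len_act (c : Fin dg) (w : W dg) :
    (w.1.head? = some c ∧ len w = len (act c w) + 1 ∧ (act c w).1 = w.1.tail) ∨
    (w.1.head? ≠ some c ∧ len (act c w) = len w + 1 ∧ (act c w).1 = c :: w.1) := by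
  obtain ⟨l, hl⟩ := w
  cases l with
  | nil => right; simp [len, act, actL]
  | cons d l =>
    by_cases hcd : c = d
    · left; subst hcd; simp [len, act, actL]
    · right
      refine ⟨by simpa using fun h => hcd h.symm, ?_, ?_⟩
      · simp [len, act, actL, hcd]
      · simp [act, actL, hcd]

theorem act_ne (c : Fin dg) (w : W dg) : act c w ≠ w := by
  intro h
  rcases len_act c w with ⟨_, h1, _⟩ | ⟨_, h1, _⟩ <;> rw [h] at h1 <;> omega

theorem act_surj_left (c : Fin dg) (l : List (Fin dg)) (h : (c :: l).IsChain (· ≠ ·)) :
    (⟨c :: l, h⟩ : W dg) = act c ⟨l, h.tail⟩ := by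
  apply Subtype.ext
  change c :: l = actL c l
  cases l with
  | nil => simp [actL]
  | cons d l =>
    have : c ≠ d := (List.isChain_cons_cons.1 h).1
    simp [actL, this]

/-- Induction on words. -/
theorem W_induction {P : W dg → Prop} (h0 : P e0) (h1 : ∀ c w, P w → P (act c w)) (w : W dg) : P w := by
  obtain ⟨l, hl⟩ := w
  induction l with
  | nil => exact h0
  | cons c l ih =>
    rw [act_surj_left]
    exact h1 _ _ (ih hl.tail)


end Pool.Agent.Y397.AM
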