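import Mathlib
import Pool.Agent.Y397.AM.Tree
import Pool.Agent.H751R3.Dart

set_option autoImplicit false

/-!
An amenable connected weighted graph can cover a weighted graph whose spectrum it does not contain.
-/

namespace Pool.Agent.Y397.AM

open Filter Topology Pool.Agent.H751R3 Pool.Agent.H751R3.Dart

variable {dg : ℕ}

/-- An undirected graph with vertex set `V` and edge set `E`, multiple edges and loops allowed:
`ends e` is the unordered pair of the endpoints of `e`, equal to `s(v, v)` for a loop at `v`. -/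
structure Gr (V E : Type) where
  ends : E → Sym2 V

variable {V E V₁ E₁ V₂ E₂ : Type}

/-- The set `E_v` of the edges at `v`; a loop at `v` is one element of it. -/
def Gr.star (Γ : Gr V E) (v : V) : Set E := {e | v ∈ Γ.ends e}

open Classical in
/-- The other endpoint `r_v(e)` of an edge `e` at `v`; it is `v` for a loop. -/
noncomputable def Gr.other (Γ : Gr V E) (v : V) (e : E) : V :=
  if h : v ∈ Γ.ends e then Sym2.Mem.other h else v

/-- Degrees and weights are uniformly bounded. -/
def UniformlyBounded (Γ : Gr V E) (α : V → E → ℂ) : Prop :=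
  (∃ D : ℕ, ∀ v, (Γ.star v).encard ≤ D) ∧ ∃ C : ℝ, ∀ v, ∀ e ∈ Γ.star v, ‖α v e‖ ≤ C

/-- The graph is connected. -/
def Gr.Connected (Γ : Gr V E) : Prop :=
  Nonempty V ∧ ∀ u v : V, Relation.ReflTransGen (fun x y => ∃ e, Γ.ends e = s(x, y)) u v

/-- `B_1(A)`: the vertices at distance at most one from `A`. -/
def Gr.ball (Γ : Gr V E) (A : Set V) : Set V :=
  {w | w ∈ A ∨ ∃ v ∈ A, ∃ e, Γ.ends e = s(v, w)}

/-- Amenability: finite sets `F 0 ⊆ F 1 ⊆ ...` exhaust `V` and
`|B_1(F k) \ F k| / |F k| → 0`. -/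
def Gr.Amenable (Γ : Gr V E) : Prop :=
  ∃ F : ℕ → Finset V, Monotone F ∧ (∀ v, ∃ k, v ∈ F k) ∧
    Tendsto (fun k => ((Γ.ball (F k) \ (F k : Set V)).ncard : ℝ) / ((F k).card : ℝ)) atTop (𝓝 0)

/-- The complex Hilbert space `ℓ²(V)`. -/
abbrev H2 (V : Type) : Type := lp (fun _ : V => ℂ) 2

/-- The bounded operators on `ℓ²(V)`. -/
abbrev Op (V : Type) : Type := H2 V →L[ℂ] H2 V

/-- The spectrum `σ(H)` of a bounded operator: the `lam` for which `H - lam` has no bounded
two-sided inverse `T`. -/
def spec (H : Op V) : Set ℂ :=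
  {lam | ¬ ∃ T : Op V, ∀ f : H2 V, T (H f - lam • f) = f ∧ H (T f) - lam • T f = f}

/-- `H` is the Laplace type operator `(H f)(v) = ∑_{e ∈ E_v} α_{v,e} f(r_v(e))` on `ℓ²(V)`. -/
def IsLaplaceType (Γ : Gr V E) (α : V → E → ℂ) (H : Op V) : Prop :=
  ∀ (f : H2 V) (v : V), H f v = ∑ᶠ e ∈ Γ.star v, α v e * f (Γ.other v e)

/-- `(Γ₁, α₁)` covers `(Γ₂, α₂)` through `φ` on vertices and `ψ` on edges. -/
structure IsCovering (Γ₁ : Gr V₁ E₁) (α₁ : V₁ → E₁ → ℂ) (Γ₂ : Gr V₂ E₂) (α₂ : V₂ → E₂ → ℂ)
    (φ : V₁ → V₂) (ψ : E₁ → E₂) : Prop where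
  surj_vert : Function.Surjective φ
  surj_edge : Function.Surjective ψ
  ends : ∀ e, Γ₂.ends (ψ e) = (Γ₁.ends e).map φ
  bij : ∀ v, Set.BijOn ψ (Γ₁.star v) (Γ₂.star (φ v))
  weight : ∀ v, ∀ e ∈ Γ₁.star v, α₁ v e = α₂ (φ v) (ψ e)

/-! ### General lemmas -/

theorem other_eq (Γ : Gr V E) {v u : V} {e : E} (h : Γ.ends e = s(v, u)) : Γ.other v e = u := by
  have hv : v ∈ Γ.ends e := by rw [h]; exact Sym2.mem_mk_left v u
  unfold Gr.other
  rw [dif_pos hv]
  have h1 : s(v, Sym2.Mem.other hv) = s(v, u) := (Sym2.other_spec hv).trans h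
  exact Sym2.congr_right.1 h1

theorem laplace_of_sys {ι : Type} [Fintype ι] (Γ : Gr V E) (D : Sys V ι) (ed : V → ι → E)
    (h1 : ∀ v, Set.BijOn (ed v) {i | v ∈ D.S i} (Γ.star v))
    (h2 : ∀ v i, v ∈ D.S i → Γ.ends (ed v i) = s(v, D.σ i v)) :
    IsLaplaceType Γ (fun _ _ => 1) D.op := by
  classical
  intro f v
  rw [D.op_apply]
  have h3 : ∑ᶠ e ∈ Γ.star v, (1 : ℂ) * f (Γ.other v e) =
      ∑ᶠ i ∈ {i | v ∈ D.S i}, f (D.σ i v) := by
    symm
    refine finsum_mem_eq_of_bijOn (ed v) (h1 v) fun i hi => ?_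
    rw [other_eq Γ (h2 v i hi), one_mul]
  rw [h3, finsum_mem_eq_finite_toFinset_sum _ (Set.toFinite _)]
  rw [← Finset.sum_subset (Finset.subset_univ _) (f := fun i => cf (D.S i) (D.σ i) f v)]
  · refine Finset.sum_congr rfl fun i hi => ?_
    have hi' : v ∈ D.S i := by simpa using hi
    simp [cf, hi']
  · intro i _ hi
    have hi' : v ∉ D.S i := by simpa using hi
    simp [cf, hi']

/-! ### The two graphs -/

/-- The half line with three loops at its origin. -/
def G2 (dg : ℕ) : Gr ℕ (Fin dg ⊕ ℕ) where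
  ends := Sum.elim (fun _ => s(0, 0)) (fun n => s(n, n + 1))

/-- The coloured edges of the 3-regular tree. -/
def TE (dg : ℕ) : Type := {x : Sym2 (W dg) × Fin dg // ∃ w, x.1 = s(w, act x.2 w)}

/-- The 3-regular tree with a half line attached at every vertex. -/
def G1 (dg : ℕ) : Gr (W dg × ℕ) (TE dg ⊕ W dg × ℕ) where
  ends := Sum.elim (fun x => x.1.1.map fun w => (w, 0)) (fun p => s((p.1, p.2), (p.1, p.2 + 1)))

/-- The tree edge of colour `c` at `w`. -/
def te (w : W dg) (c : Fin dg) : TE dg := ⟨(s(w, act c w), c), w, rfl⟩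

theorem te_act (w : W dg) (c : Fin dg) : te (act c w) c = te w c := by
  apply Subtype.ext
  change (s(act c w, act c (act c w)), c) = (s(w, act c w), c)
  rw [act_act, Sym2.eq_swap]

/-- The darts of `G1`. -/
def D1 (dg : ℕ) : Sys (W dg × ℕ) (Fin dg ⊕ Bool) where
  S := fun i => match i with
    | Sum.inl _ => {v | v.2 = 0}
    | Sum.inr true => Set.univ
    | Sum.inr false => {v | v.2 ≠ 0}
  σ := fun i v => match i with
    | Sum.inl c => (act c v.1, v.2)
    | Sum.inr true => (v.1, v.2 + 1)
    | Sum.inr false => (v.1, v.2 - 1)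
  rev := fun i => match i with
    | Sum.inl c => Sum.inl c
    | Sum.inr b => Sum.inr !b
  rev_rev := by rintro (c | b) <;> simp
  mem := by
    rintro (c | b) ⟨w, n⟩ h
    · exact h
    · cases b
      · trivial
      · exact Nat.succ_ne_zero n
  inv := by
    rintro (c | b) ⟨w, n⟩ h
    · simp [act_act]
    · cases b
      · have hn : n ≠ 0 := h
        simp only [Bool.not_false, Prod.mk.injEq, true_and]
        omega
      · simp

/-- The darts of `G2`. -/
def D2 (dg : ℕ) : Sys ℕ (Fin dg ⊕ Bool) where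
  S := fun i => match i with
    | Sum.inl _ => {v | v = 0}
    | Sum.inr true => Set.univ
    | Sum.inr false => {v | v ≠ 0}
  σ := fun i v => match i with
    | Sum.inl _ => v
    | Sum.inr true => v + 1
    | Sum.inr false => v - 1
  rev := fun i => match i with
    | Sum.inl c => Sum.inl c
    | Sum.inr b => Sum.inr !b
  rev_rev := by rintro (c | b) <;> simp
  mem := by
    rintro (c | b) n h
    · exact h
    · cases b
      · trivial
      · exact Nat.succ_ne_zero n
  inv := by
    rintro (c | b) n h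
    · rfl
    · cases b
      · have hn : n ≠ 0 := h
        simp only [Bool.not_false]
        omega
      · simp

/-- The edge under a dart of `G1`. -/
def ed1 (v : W dg × ℕ) : Fin dg ⊕ Bool → TE dg ⊕ W dg × ℕ
  | Sum.inl c => Sum.inl (te v.1 c)
  | Sum.inr true => Sum.inr v
  | Sum.inr false => Sum.inr (v.1, v.2 - 1)

/-- The edge under a dart of `G2`. -/
def ed2 (v : ℕ) : Fin dg ⊕ Bool → Fin dg ⊕ ℕ
  | Sum.inl c => Sum.inl c
  | Sum.inr true => Sum.inr v
  | Sum.inr false => Sum.inr (v - 1)

theorem ends1 (v : W dg × ℕ) (i : Fin dg ⊕ Bool) (h : v ∈ (D1 dg).S i) :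
    (G1 dg).ends (ed1 v i) = s(v, (D1 dg).σ i v) := by
  obtain ⟨w, n⟩ := v
  rcases i with c | b
  · have hn : n = 0 := h
    subst hn
    rfl
  · cases b
    · have hn : n ≠ 0 := h
      change s((w, n - 1), (w, n - 1 + 1)) = s((w, n), (w, n - 1))
      rw [Sym2.eq_swap]
      congr 3
      omega
    · rfl

theorem ends2 (v : ℕ) (i : Fin dg ⊕ Bool) (h : v ∈ (D2 dg).S i) :
    (G2 dg).ends (ed2 v i) = s(v, (D2 dg).σ i v) := by
  rcases i with c | b
  · have hn : v = 0 := h
    subst hn
    rfl
  · cases b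
    · have hn : v ≠ 0 := h
      change s(v - 1, v - 1 + 1) = s(v, v - 1)
      rw [Sym2.eq_swap]
      congr 2
      omega
    · rfl

theorem bij1 (v : W dg × ℕ) : Set.BijOn (ed1 v) {i | v ∈ (D1 dg).S i} ((G1 dg).star v) := by
  refine ⟨?_, ?_, ?_⟩
  · intro i hi
    change v ∈ (G1 dg).ends (ed1 v i)
    rw [ends1 v i hi]
    exact Sym2.mem_mk_left _ _
  · rintro (c | b) hi (d | b') hj h
    · have h1 : te v.1 c = te v.1 d := Sum.inl_injective h
      have h2 : c = d := congrArg (fun x : TE dg => x.1.2) h1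
      rw [h2]
    · cases b' <;> cases h
    · cases b <;> cases h
    · have hn : ∀ n : ℕ, n ≠ 0 → n - 1 ≠ n := by intro n hn; omega
      cases b <;> cases b'
      · rfl
      · exfalso
        have h1 : (v.1, v.2 - 1) = v := Sum.inr_injective h
        exact hn v.2 hi (congrArg Prod.snd h1)
      · exfalso
        have h1 : v = (v.1, v.2 - 1) := Sum.inr_injective h
        exact hn v.2 hj (congrArg Prod.snd h1).symm
      · rfl
  · rintro (x | ⟨w, m⟩) he
    · obtain ⟨⟨z, c⟩, w, hw⟩ := x
      simp only at hw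
      subst hw
      have he' : v ∈ s((w, 0), (act c w, 0)) := he
      rw [Sym2.mem_iff] at he'
      rcases he' with rfl | rfl
      · exact ⟨Sum.inl c, rfl, rfl⟩
      · refine ⟨Sum.inl c, rfl, ?_⟩
        change Sum.inl (te (act c w) c) = _
        rw [te_act]
        rfl
    · have he' : v ∈ s((w, m), (w, m + 1)) := he
      rw [Sym2.mem_iff] at he'
      rcases he' with rfl | rfl
      · exact ⟨Sum.inr true, trivial, rfl⟩
      · exact ⟨Sum.inr false, Nat.succ_ne_zero m, rfl⟩

theorem bij2 (v : ℕ) : Set.BijOn (ed2 v) {i | v ∈ (D2 dg).S i} ((G2 dg).star v) := by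
  refine ⟨?_, ?_, ?_⟩
  · intro i hi
    change v ∈ (G2 dg).ends (ed2 v i)
    rw [ends2 v i hi]
    exact Sym2.mem_mk_left _ _
  · rintro (c | b) hi (d | b') hj h
    · have h2 : c = d := Sum.inl_injective h
      rw [h2]
    · cases b' <;> cases h
    · cases b <;> cases h
    · have hn : ∀ n : ℕ, n ≠ 0 → n - 1 ≠ n := by intro n hn; omega
      cases b <;> cases b'
      · rfl
      · exfalso
        exact hn v hi (Sum.inr_injective h)
      · exfalso
        exact hn v hj (Sum.inr_injective h).symm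
      · rfl
  · rintro (c | m) he
    · have he' : v ∈ s(0, 0) := he
      rw [Sym2.mem_iff] at he'
      have hv : v = 0 := by rcases he' with h | h <;> exact h
      subst hv
      exact ⟨Sum.inl c, rfl, rfl⟩
    · have he' : v ∈ s(m, m + 1) := he
      rw [Sym2.mem_iff] at he'
      rcases he' with rfl | rfl
      · exact ⟨Sum.inr true, trivial, rfl⟩
      · exact ⟨Sum.inr false, Nat.succ_ne_zero m, rfl⟩

/-- The covering map on edges. -/
def psi : TE dg ⊕ W dg × ℕ → Fin dg ⊕ ℕ := Sum.map (fun x => x.1.2) Prod.snd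

theorem psi_ed1 (v : W dg × ℕ) (i : Fin dg ⊕ Bool) : psi (ed1 v i) = ed2 v.2 i := by
  rcases i with c | b
  · rfl
  · cases b <;> rfl

theorem dom_eq (v : W dg × ℕ) : {i | v ∈ (D1 dg).S i} = {i | v.2 ∈ (D2 dg).S i} := by
  ext i
  rcases i with c | b
  · rfl
  · cases b <;> exact Iff.rfl

theorem covering : IsCovering (G1 dg) (fun _ _ => 1) (G2 dg) (fun _ _ => 1) Prod.snd psi where
  surj_vert := fun n => ⟨(e0, n), rfl⟩
  surj_edge := by
    rintro (c | n)
    · exact ⟨Sum.inl (te e0 c), rfl⟩
    · exact ⟨Sum.inr (e0, n), rfl⟩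
  ends := by
    rintro (x | ⟨w, m⟩)
    · obtain ⟨⟨z, c⟩, w, hw⟩ := x
      simp only at hw
      subst hw
      rfl
    · rfl
  bij := by
    intro v
    have h1 := bij1 v
    have h2 := bij2 (dg := dg) v.2
    rw [← dom_eq v] at h2
    refine ⟨?_, ?_, ?_⟩
    · intro e he
      obtain ⟨i, hi, rfl⟩ := h1.surjOn he
      rw [psi_ed1]
      exact h2.mapsTo hi
    · intro e he e' he' h
      obtain ⟨i, hi, rfl⟩ := h1.surjOn he
      obtain ⟨j, hj, rfl⟩ := h1.surjOn he'
      rw [psi_ed1, psi_ed1] at h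
      rw [h2.injOn hi hj h]
    · intro e he
      obtain ⟨i, hi, rfl⟩ := h2.surjOn he
      exact ⟨ed1 v i, h1.mapsTo hi, psi_ed1 v i⟩
  weight := fun _ _ _ => rfl

theorem bounded_of {V E : Type} (Γ : Gr V E) (D : Sys V (Fin dg ⊕ Bool))
    (ed : V → Fin dg ⊕ Bool → E)
    (h1 : ∀ v, Set.BijOn (ed v) {i | v ∈ D.S i} (Γ.star v)) :
    UniformlyBounded Γ (fun _ _ => 1) := by
  refine ⟨⟨dg + 2, fun v => ?_⟩, 1, fun v e _ => by simp⟩
  rw [← (h1 v).image_eq]
  refine (Set.encard_image_le _ _).trans ?_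
  refine (Set.encard_le_encard (Set.subset_univ _)).trans ?_
  rw [Set.encard_univ]
  simp

theorem connected1 : (G1 dg).Connected := by
  refine ⟨⟨(e0, 0)⟩, ?_⟩
  have key : ∀ v : W dg × ℕ,
      Relation.ReflTransGen (fun x y => ∃ e, (G1 dg).ends e = s(x, y)) (e0, 0) v := by
    rintro ⟨w, n⟩
    induction n with
    | zero =>
      induction w using W_induction with
      | h0 => exact Relation.ReflTransGen.refl
      | h1 c w ih => exact ih.tail ⟨Sum.inl (te w c), rfl⟩
    | succ n ih => exact ih.tail ⟨Sum.inr (w, n), rfl⟩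
  have hs : ∀ x y : W dg × ℕ, (∃ e, (G1 dg).ends e = s(x, y)) → ∃ e, (G1 dg).ends e = s(y, x) := by
    rintro x y ⟨e, he⟩
    exact ⟨e, by rw [he, Sym2.eq_swap]⟩
  intro u v
  refine Relation.ReflTransGen.trans ?_ (key v)
  have := key u
  induction this with
  | refl => exact Relation.ReflTransGen.refl
  | tail _ h ih => exact Relation.ReflTransGen.head (hs _ _ h) ih

/-- Balls of the tree. -/
def tb (dg : ℕ) : ℕ → Finset (W dg)
  | 0 => {e0}
  | k + 1 => tb dg k ∪ (Finset.univ ×ˢ tb dg k).image fun p : Fin dg × W dg => act p.1 p.2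

theorem tb_pos (dg k : ℕ) : 0 < (tb dg k).card := by
  have : e0 ∈ tb dg k := by
    induction k with
    | zero => simp [tb]
    | succ k ih => exact Finset.mem_union_left _ ih
  exact Finset.card_pos.2 ⟨_, this⟩

theorem amenable1 : (G1 dg).Amenable := by
  refine ⟨fun k => tb dg k ×ˢ Finset.range (k + 1), ?_, ?_, ?_⟩
  · refine monotone_nat_of_le_succ fun k => ?_
    refine Finset.product_subset_product Finset.subset_union_left ?_
    exact Finset.range_mono (by omega)
  · have h1 : ∀ w : W dg, ∃ k, w ∈ tb dg k := by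
      intro w
      induction w using W_induction with
      | h0 => exact ⟨0, by simp [tb]⟩
      | h1 c w ih =>
        obtain ⟨k, hk⟩ := ih
        refine ⟨k + 1, Finset.mem_union_right _ ?_⟩
        rw [Finset.mem_image]
        exact ⟨(c, w), by simp [hk], rfl⟩
    have hmono : Monotone (tb dg) := monotone_nat_of_le_succ fun k => Finset.subset_union_left
    rintro ⟨w, n⟩
    obtain ⟨k, hk⟩ := h1 w
    refine ⟨max k n, ?_⟩
    rw [Finset.mem_product]
    refine ⟨hmono (le_max_left k n) hk, ?_⟩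
    rw [Finset.mem_range]
    have := le_max_right k n
    omega
  · have hb : ∀ k : ℕ, ((G1 dg).ball (tb dg k ×ˢ Finset.range (k + 1) : Finset (W dg × ℕ)) \
        ((tb dg k ×ˢ Finset.range (k + 1) : Finset (W dg × ℕ)) : Set (W dg × ℕ))).ncard ≤
          (dg + 1) * (tb dg k).card := by
      intro k
      set B : Finset (W dg × ℕ) :=
        ((Finset.univ ×ˢ tb dg k).image fun p : Fin dg × W dg => act p.1 p.2) ×ˢ {0} ∪
          tb dg k ×ˢ {k + 1} with hB
      have hsub : ((G1 dg).ball (tb dg k ×ˢ Finset.range (k + 1) : Finset (W dg × ℕ)) \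
        ((tb dg k ×ˢ Finset.range (k + 1) : Finset (W dg × ℕ)) : Set (W dg × ℕ))) ⊆ (B : Set (W dg × ℕ)) := by
        rintro ⟨w, n⟩ ⟨h1, h2⟩
        rcases h1 with h1 | ⟨⟨w', n'⟩, h3, e, he⟩
        · exact absurd h1 h2
        · rw [Finset.mem_coe, Finset.mem_product, Finset.mem_range] at h3 h2
          obtain ⟨h3, h4⟩ := h3
          simp only at h3 h4
          rcases e with x | ⟨w'', m⟩
          · obtain ⟨⟨z, c⟩, w1, hw⟩ := x
            simp only at hw
            subst hw
            have he' : s((w1, 0), (act c w1, 0)) = s((w', n'), (w, n)) := he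
            rw [Sym2.eq_iff] at he'
            rw [Finset.mem_coe, hB, Finset.mem_union]
            left
            rw [Finset.mem_product]
            rcases he' with ⟨h5, h6⟩ | ⟨h5, h6⟩
            · obtain ⟨rfl, rfl⟩ := Prod.mk.inj h5
              obtain ⟨rfl, rfl⟩ := Prod.mk.inj h6
              refine ⟨?_, by simp⟩
              rw [Finset.mem_image]
              exact ⟨(c, w1), by simp [h3], rfl⟩
            · obtain ⟨rfl, rfl⟩ := Prod.mk.inj h5
              obtain ⟨rfl, rfl⟩ := Prod.mk.inj h6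
              refine ⟨?_, by simp⟩
              rw [Finset.mem_image]
              exact ⟨(c, act c w1), by simp [h3], by simp [act_act]⟩
          · have he' : s((w'', m), (w'', m + 1)) = s((w', n'), (w, n)) := he
            rw [Sym2.eq_iff] at he'
            simp only [not_and, not_lt] at h2
            rcases he' with ⟨h5, h6⟩ | ⟨h5, h6⟩
            · obtain ⟨rfl, rfl⟩ := Prod.mk.inj h5
              obtain ⟨rfl, rfl⟩ := Prod.mk.inj h6
              have := h2 h3
              rw [Finset.mem_coe, hB, Finset.mem_union]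
              right
              rw [Finset.mem_product]
              refine ⟨h3, ?_⟩
              rw [Finset.mem_singleton]
              change m + 1 = k + 1
              omega
            · obtain ⟨rfl, rfl⟩ := Prod.mk.inj h5
              obtain ⟨rfl, rfl⟩ := Prod.mk.inj h6
              have := h2 h3
              omega
      refine (Set.ncard_le_ncard hsub (Finset.finite_toSet _)).trans ?_
      rw [Set.ncard_coe_finset]
      refine (Finset.card_union_le _ _).trans ?_
      rw [Finset.card_product, Finset.card_product, Finset.card_singleton, Finset.card_singleton]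
      have h1 : ((Finset.univ ×ˢ tb dg k).image fun p : Fin dg × W dg => act p.1 p.2).card ≤
          dg * (tb dg k).card := by
        refine Finset.card_image_le.trans ?_
        rw [Finset.card_product]
        simp
      rw [add_mul, one_mul]
      omega
    refine squeeze_zero (fun k => by positivity) (g := fun k : ℕ => ((dg : ℝ) + 1) / ((k : ℝ) + 1)) ?_ ?_
    · intro k
      have h1 : (((tb dg k ×ˢ Finset.range (k + 1) : Finset (W dg × ℕ))).card : ℝ) =
          (tb dg k).card * ((k : ℝ) + 1) := by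
        rw [Finset.card_product, Finset.card_range]
        push_cast
        ring
      rw [h1]
      have h2 : (0 : ℝ) < (tb dg k).card := by exact_mod_cast tb_pos dg k
      have h3 : (0 : ℝ) < (k : ℝ) + 1 := by positivity
      rw [div_le_div_iff₀ (by positivity) h3]
      have h4 : ((((G1 dg).ball (tb dg k ×ˢ Finset.range (k + 1) : Finset (W dg × ℕ)) \
        ((tb dg k ×ˢ Finset.range (k + 1) : Finset (W dg × ℕ)) : Set (W dg × ℕ))).ncard : ℕ) : ℝ) ≤
          (dg + 1) * (tb dg k).card := by exact_mod_cast hb k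
      nlinarith
    · have : Tendsto (fun k : ℕ => ((dg : ℝ) + 1) / ((k : ℝ) + 1)) atTop (𝓝 0) := by
        have h := tendsto_one_div_add_atTop_nhds_zero_nat (𝕜 := ℝ)
        have h2 := h.const_mul ((dg : ℝ) + 1)
        simpa [div_eq_mul_inv] using h2
      exact this


end Pool.Agent.Y397.AM
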