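import Mathlib
import Pool.Agent.Y397.AM.Graph

set_option autoImplicit false

/-!
# The spectral radius of the quotient and the norm of the covering
-/

namespace Pool.Agent.Y397.AM

open Filter Topology Pool.Agent.H751R3 Pool.Agent.H751R3.Dart

/-- The norm of a symmetric operator is bounded by its numerical radius. -/
theorem norm_le_of_symm {E : Type*} [NormedAddCommGroup E] [InnerProductSpace ℂ E]
    (T : E →L[ℂ] E) (hs : ∀ x y, inner ℂ (T x) y = inner ℂ x (T y)) {M : ℝ} (hM : 0 ≤ M)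
    (h : ∀ f, ‖inner ℂ f (T f)‖ ≤ M * ‖f‖ ^ 2) : ‖T‖ ≤ M := by
  refine T.opNorm_le_bound hM fun x => ?_
  rcases (norm_nonneg (T x)).eq_or_lt with h0 | h0
  · rw [← h0]
    positivity
  rcases (norm_nonneg x).eq_or_lt with hx | hx
  · have : x = 0 := norm_eq_zero.1 hx.symm
    rw [this]
    simp
  set t : ℝ := ‖x‖ / ‖T x‖ with ht
  have ht0 : 0 < t := div_pos hx h0
  set y : E := (t : ℂ) • T x with hy
  have e1 : inner ℂ (x + y) (T (x + y)) - inner ℂ (x - y) (T (x - y)) =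
      2 * (inner ℂ x (T y) + inner ℂ y (T x)) := by
    rw [map_add, map_sub, inner_add_left, inner_add_right, inner_add_right, inner_sub_left,
      inner_sub_right, inner_sub_right]
    ring
  have e2 : inner ℂ x (T y) = ((t * ‖T x‖ ^ 2 : ℝ) : ℂ) := by
    rw [← hs, hy, inner_smul_right, inner_self_eq_norm_sq_to_K]
    push_cast
    rfl
  have e3 : inner ℂ y (T x) = ((t * ‖T x‖ ^ 2 : ℝ) : ℂ) := by
    rw [hy, inner_smul_left, inner_self_eq_norm_sq_to_K, Complex.conj_ofReal]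
    push_cast
    rfl
  have e4 : ‖inner ℂ (x + y) (T (x + y)) - inner ℂ (x - y) (T (x - y))‖ =
      4 * (t * ‖T x‖ ^ 2) := by
    rw [e1, e2, e3]
    have : (2 * (((t * ‖T x‖ ^ 2 : ℝ) : ℂ) + ((t * ‖T x‖ ^ 2 : ℝ) : ℂ))) =
        ((4 * (t * ‖T x‖ ^ 2) : ℝ) : ℂ) := by
      push_cast
      ring
    rw [this, Complex.norm_real, Real.norm_of_nonneg (by positivity)]
  have e5 : ‖inner ℂ (x + y) (T (x + y)) - inner ℂ (x - y) (T (x - y))‖ ≤
      M * ‖x + y‖ ^ 2 + M * ‖x - y‖ ^ 2 :=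
    (norm_sub_le _ _).trans (add_le_add (h _) (h _))
  have e6 : ‖x + y‖ ^ 2 + ‖x - y‖ ^ 2 = 2 * (‖x‖ ^ 2 + ‖y‖ ^ 2) :=
    parallelogram_law_with_norm ℂ x y
  have e7 : ‖y‖ = ‖x‖ := by
    rw [hy, norm_smul, Complex.norm_real, Real.norm_of_nonneg ht0.le, ht,
      div_mul_cancel₀ _ h0.ne']
  rw [e4] at e5
  rw [e7] at e6
  have e8 : t * ‖T x‖ = ‖x‖ := by rw [ht, div_mul_cancel₀ _ h0.ne']
  have e9 : 4 * (‖x‖ * ‖T x‖) ≤ 4 * (M * ‖x‖ ^ 2) := by
    calc 4 * (‖x‖ * ‖T x‖) = 4 * (t * ‖T x‖ ^ 2) := by rw [← e8]; ring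
      _ ≤ M * ‖x + y‖ ^ 2 + M * ‖x - y‖ ^ 2 := e5
      _ = M * (‖x + y‖ ^ 2 + ‖x - y‖ ^ 2) := by ring
      _ = 4 * (M * ‖x‖ ^ 2) := by rw [e6]; ring
  have e10 : ‖x‖ * ‖T x‖ ≤ ‖x‖ * (M * ‖x‖) := by nlinarith
  exact le_of_mul_le_mul_left e10 hx

theorem mem_spec2 (dg : ℕ) (hd : 2 ≤ dg) :
    ((dg : ℂ) + (dg : ℂ)⁻¹) ∈ spectrum ℂ (D2 dg).op := by
  have hd0 : (0 : ℝ) < dg := by
    have : 0 < dg := by omega
    exact_mod_cast this
  have hd1 : (1 : ℝ) < dg := by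
    have : 1 < dg := by omega
    exact_mod_cast this
  have hdc : (dg : ℂ) ≠ 0 := by
    have : dg ≠ 0 := by omega
    exact_mod_cast this
  have hsum : Summable fun n : ℕ => ‖((dg : ℂ)⁻¹) ^ n‖ ^ 2 := by
    have h1 : ∀ n : ℕ, ‖((dg : ℂ)⁻¹) ^ n‖ ^ 2 = (((dg : ℝ)⁻¹) ^ 2) ^ n := by
      intro n
      rw [norm_pow, ← pow_mul, mul_comm n 2, pow_mul, norm_inv, Complex.norm_natCast]
    simp only [h1]
    have h2 : (dg : ℝ)⁻¹ < 1 := inv_lt_one_of_one_lt₀ hd1
    have h3 : (0 : ℝ) < (dg : ℝ)⁻¹ := inv_pos.2 hd0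
    exact summable_geometric_of_lt_one (by positivity) (by nlinarith)
  set g : Dart.L2 ℕ := ⟨fun n => ((dg : ℂ)⁻¹) ^ n, mem_of_summable _ hsum⟩ with hg
  have hgn : ∀ n, g n = ((dg : ℂ)⁻¹) ^ n := fun n => rfl
  have hne : g ≠ 0 := by
    intro h
    have h1 := congrArg (fun f : Dart.L2 ℕ => f 0) h
    simp only at h1
    rw [hgn] at h1
    simp at h1
  have heig : (D2 dg).op g = ((dg : ℂ) + (dg : ℂ)⁻¹) • g := by
    ext n
    rw [(D2 dg).op_apply]
    change _ = ((dg : ℂ) + (dg : ℂ)⁻¹) * g n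
    rw [Fintype.sum_sum_type]
    simp only [Fintype.sum_bool]
    cases n with
    | zero =>
      simp only [cf, D2]
      simp only [Set.mem_ofPred_eq, if_true, Set.mem_univ, hgn, ne_eq, not_true_eq_false,
        if_false, Finset.sum_const, Finset.card_univ, Fintype.card_fin, nsmul_eq_mul]
      simp
    | succ n =>
      simp only [cf, D2]
      simp only [Set.mem_ofPred_eq, Nat.succ_ne_zero, if_false, Set.mem_univ, if_true, ne_eq,
        not_false_eq_true, Nat.add_sub_cancel, hgn, Finset.sum_const_zero]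
      have h5 : (dg : ℂ) * ((dg : ℂ)⁻¹) ^ (n + 1) = ((dg : ℂ)⁻¹) ^ n := by
        rw [pow_succ]
        field_simp
      rw [add_mul, h5, pow_succ ((dg : ℂ)⁻¹) (n + 1)]
      ring
  rw [spectrum.mem_iff]
  intro hu
  have h1 : (algebraMap ℂ (Dart.L2 ℕ →L[ℂ] Dart.L2 ℕ) ((dg : ℂ) + (dg : ℂ)⁻¹) - (D2 dg).op) g
      = 0 := by
    rw [sub_apply, heig]
    simp [Algebra.algebraMap_eq_smul_one]
  rw [ContinuousLinearMap.isUnit_iff_bijective] at hu
  exact hne (hu.1 (by rw [h1, map_zero]))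

/-- The weights of the Schur test. -/
noncomputable def sc (q dg : ℕ) : Fin dg ⊕ Bool → W dg × ℕ → ℝ
  | Sum.inl c => fun v => if v.1.1.head? = some c then (q : ℝ) else (q : ℝ)⁻¹
  | Sum.inr true => fun _ => (2 * (q : ℝ))⁻¹
  | Sum.inr false => fun _ => 2 * (q : ℝ)

theorem norm_D1 (q : ℕ) (hq : 1 ≤ q) : ‖(D1 (q ^ 2 + 1)).op‖ ≤ 2 * (q : ℝ) + (2 * (q : ℝ))⁻¹ := by
  have hq0 : (0 : ℝ) < q := by exact_mod_cast hq
  have hq1 : (1 : ℝ) ≤ q := by exact_mod_cast hq
  have hqi : (0 : ℝ) < (q : ℝ)⁻¹ := inv_pos.2 hq0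
  refine norm_le_of_symm _ (D1 (q ^ 2 + 1)).symm (by positivity) ?_
  refine (D1 (q ^ 2 + 1)).schur (sc q (q ^ 2 + 1)) ?_ ?_ ?_
  · rintro (c | b) v _
    · unfold sc; simp only; split_ifs <;> positivity
    · cases b <;> simp [sc, hq0]
  · rintro (c | b) ⟨w, n⟩ _
    · change (if (act c w).1.head? = some c then (q : ℝ) else (q : ℝ)⁻¹) =
        (if w.1.head? = some c then (q : ℝ) else (q : ℝ)⁻¹)⁻¹
      rcases len_act c w with ⟨h0, h1, h2⟩ | ⟨h0, h1, h2⟩
      · rw [if_pos h0, if_neg]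
        rw [h2]
        obtain ⟨l, hl⟩ := w
        cases l with
        | nil => simp at h0
        | cons d l =>
          simp only [List.head?_cons, Option.some.injEq] at h0
          subst h0
          simp only [List.tail_cons]
          cases l with
          | nil => simp
          | cons e l =>
            have : d ≠ e := (List.isChain_cons_cons.1 hl).1
            simpa using fun h => this h.symm
      · rw [if_neg h0, if_pos, inv_inv]
        rw [h2]; simp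
    · cases b
      · change (2 * (q : ℝ))⁻¹ = (2 * (q : ℝ))⁻¹
        rfl
      · change 2 * (q : ℝ) = ((2 * (q : ℝ))⁻¹)⁻¹
        rw [inv_inv]
  · rintro ⟨⟨l, hl⟩, n⟩
    rw [Fintype.sum_sum_type]
    simp only [Fintype.sum_bool]
    cases n with
    | zero =>
      simp only [D1, Set.indicator, Set.mem_ofPred_eq, if_true, Set.mem_univ, ne_eq,
        not_true_eq_false, if_false, sc]
      have key : (∑ c : Fin (q ^ 2 + 1), if l.head? = some c then (q : ℝ) else (q : ℝ)⁻¹) ≤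
          2 * (q : ℝ) := by
        have e0 : (((q ^ 2 + 1 : ℕ) : ℝ)) * (q : ℝ)⁻¹ = q + (q : ℝ)⁻¹ := by
          push_cast
          field_simp
        have hqq : (q : ℝ)⁻¹ ≤ q := (inv_le_one_of_one_le₀ hq1).trans hq1
        cases l with
        | nil =>
          simp only [List.head?_nil, reduceCtorEq, if_false, Finset.sum_const, Finset.card_univ,
            Fintype.card_fin, nsmul_eq_mul]
          rw [e0]
          linarith
        | cons d l =>
          simp only [List.head?_cons, Option.some.injEq]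
          have h3 : ∀ c : Fin (q ^ 2 + 1), (if d = c then (q : ℝ) else (q : ℝ)⁻¹) =
              (q : ℝ)⁻¹ + (if d = c then (q : ℝ) - (q : ℝ)⁻¹ else 0) := by
            intro c
            split_ifs <;> ring
          rw [Finset.sum_congr rfl fun c _ => h3 c, Finset.sum_add_distrib, Finset.sum_const,
            Finset.card_univ, Fintype.card_fin, nsmul_eq_mul, e0, Finset.sum_ite_eq,
            if_pos (Finset.mem_univ _)]
          linarith
      have h6 : (2 * (q : ℝ))⁻¹ + 0 = (2 * (q : ℝ))⁻¹ := add_zero _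
      linarith
    | succ n =>
      simp only [D1, Set.indicator, Set.mem_ofPred_eq, Nat.succ_ne_zero, if_false,
        Set.mem_univ, if_true, ne_eq, not_false_eq_true, sc, Finset.sum_const_zero]
      linarith

/-- The spectral radius of the quotient is not bounded by a multiple of the norm of the covering:
for every `C` there is `q` with `C ‖H₁‖ < q² + 1 + 1 / (q² + 1)`. -/
theorem exists_ratio (C : ℝ) : ∃ q : ℕ, 2 ≤ q ∧
    C * ‖(D1 (q ^ 2 + 1)).op‖ < ((q ^ 2 + 1 : ℕ) : ℝ) + (((q ^ 2 + 1 : ℕ) : ℝ))⁻¹ := by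
  obtain ⟨m, hm⟩ := exists_nat_gt (3 * |C|)
  refine ⟨m + 2, by omega, ?_⟩
  have h1 := norm_D1 (m + 2) (by omega)
  have hq : (0 : ℝ) < ((m + 2 : ℕ) : ℝ) := by positivity
  have hq2 : (2 : ℝ) ≤ ((m + 2 : ℕ) : ℝ) := by
    push_cast
    have : (0 : ℝ) ≤ m := Nat.cast_nonneg m
    linarith
  have h2 : (2 * ((m + 2 : ℕ) : ℝ))⁻¹ ≤ 1 := inv_le_one_of_one_le₀ (by linarith)
  have h3 : ‖(D1 ((m + 2) ^ 2 + 1)).op‖ ≤ 3 * ((m + 2 : ℕ) : ℝ) := by linarith
  have h4 : C * ‖(D1 ((m + 2) ^ 2 + 1)).op‖ ≤ |C| * (3 * ((m + 2 : ℕ) : ℝ)) :=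
    mul_le_mul (le_abs_self C) h3 (norm_nonneg _) (abs_nonneg _)
  have h5 : 3 * |C| < ((m + 2 : ℕ) : ℝ) := by
    push_cast
    linarith
  have h6 : |C| * (3 * ((m + 2 : ℕ) : ℝ)) ≤ ((m + 2 : ℕ) : ℝ) * ((m + 2 : ℕ) : ℝ) := by
    nlinarith
  have h7 : (0 : ℝ) < ((((m + 2) ^ 2 + 1 : ℕ) : ℝ))⁻¹ := by positivity
  have h8 : ((((m + 2) ^ 2 + 1 : ℕ) : ℝ)) = ((m + 2 : ℕ) : ℝ) * ((m + 2 : ℕ) : ℝ) + 1 := by
    push_cast
    ring
  rw [h8] at h7 ⊢
  linarith

theorem deg_bound {dg : ℕ} {V E : Type} (Γ : Gr V E) (D : Sys V (Fin dg ⊕ Bool))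
    (ed : V → Fin dg ⊕ Bool → E)
    (h1 : ∀ v, Set.BijOn (ed v) {i | v ∈ D.S i} (Γ.star v)) (v : V) :
    (Γ.star v).encard ≤ (dg + 2 : ℕ) := by
  rw [← (h1 v).image_eq]
  refine (Set.encard_image_le _ _).trans ?_
  refine (Set.encard_le_encard (Set.subset_univ _)).trans ?_
  rw [Set.encard_univ]
  simp

variable {V : Type}

theorem mem_spec_iff (H : Op V) (lam : ℂ) : lam ∈ spec H ↔ lam ∈ spectrum ℂ H := by
  unfold spec
  rw [spectrum.mem_iff, Set.mem_ofPred_eq, not_iff_not]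
  constructor
  · rintro ⟨T, hT⟩
    rw [ContinuousLinearMap.isUnit_iff_bijective]
    have h1 : ∀ f, (algebraMap ℂ (Op V) lam - H) f = - (H f - lam • f) := by
      intro f
      simp [Algebra.algebraMap_eq_smul_one]
    constructor
    · intro f g hfg
      rw [h1, h1, neg_inj] at hfg
      rw [← (hT f).1, hfg, (hT g).1]
    · intro f
      refine ⟨- T f, ?_⟩
      rw [h1, map_neg, smul_neg, ← neg_sub_neg, neg_neg, neg_neg]
      have := (hT f).2
      rw [← this]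
      simp [this]
  · rintro ⟨u, hu⟩
    refine ⟨- (↑u⁻¹ : Op V), fun f => ?_⟩
    have h1 : ∀ f, (u : Op V) f = lam • f - H f := by
      intro f
      rw [hu]
      simp [Algebra.algebraMap_eq_smul_one]
    have h2 : ∀ f, (↑u⁻¹ : Op V) ((u : Op V) f) = f := by
      intro f
      have : (↑u⁻¹ * ↑u : Op V) f = f := by rw [Units.inv_mul]; rfl
      exact this
    have h3 : ∀ f, (u : Op V) ((↑u⁻¹ : Op V) f) = f := by
      intro f
      have : (↑u * ↑u⁻¹ : Op V) f = f := by rw [Units.mul_inv]; rfl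
      exact this
    constructor
    · have h4 : H f - lam • f = - (u : Op V) f := by rw [h1]; abel
      rw [h4]
      change - (↑u⁻¹ : Op V) (- (u : Op V) f) = f
      rw [map_neg, h2, neg_neg]
    · change H (- (↑u⁻¹ : Op V) f) - lam • (- (↑u⁻¹ : Op V) f) = f
      have h4 := h3 f
      rw [h1] at h4
      rw [map_neg, smul_neg]
      rw [← h4]
      simp only [h4]
      rw [← h4]
      simp only [h4]
      nth_rewrite 3 [← h4]
      abel


end Pool.Agent.Y397.AM
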